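import Mathlib
import Pool.Agent.Work.MP_c04246_lc.Q.FFin

set_option autoImplicit false

namespace Pool.Agent.Results.MP_c04246_lc.Collapse

open Pool.Agent.Work.MP_c04246_lc Pool.Agent.Work.MP_c04246_lc.Q

/-- The depth hierarchy of constant-depth proof systems with counting connectives modulo `p`
collapses to depth two, with quasipolynomial increase in size. In the resulting refutations all
disjunctions and conjunctions inside formulas contain only polylogarithmically many variables, so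
that the formulas are polynomial equations of polylogarithmic degree. -/
theorem result (p : ℕ) [Fact p.Prime] (K : ℕ) : ∃ C : ℕ, ∀ (d n S : ℕ)
    (F : List (List (Fin n × Bool))) (pi : List (Finset (Fml p (Fin n)))),
    CDer K {G | ∃ B ∈ F, G = clC B ∨ G = {Fml.disj (B.map Fml.litF)}} pi →
    (∅ ∈ pi ∨ {Fml.disj (F.map fun B => Fml.neg (Fml.disj (B.map Fml.litF)))} ∈ pi) →
    (∀ G ∈ pi, ∀ b ∈ G, Fml.depth b ≤ d) → n ≤ S → (pi.map csize).sum ≤ S →
    ∃ σ : List (Finset (Fml p (Fin n))), CDer ((p + 2) ^ 2) {G | ∃ B ∈ F, G = clC B} σ ∧ ∅ ∈ σ ∧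
      (∀ G ∈ σ, ∀ b ∈ G, Fml.depth b ≤ 2 ∧ Small ((C * (Nat.log 2 S + 1)) ^ (d + 5)) b) ∧
      (σ.map csize).sum ≤ 2 ^ ((C * (Nat.log 2 S + 1)) ^ (d + 6)) := by
  obtain ⟨C, hC⟩ := final p K
  exact ⟨C, fun d n S F pi h1 h2 h3 h4 h5 => (hC d n S F pi h1 h2 h3 h4 h5).2⟩

end Pool.Agent.Results.MP_c04246_lc.Collapse
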