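import Mathlib
import Pool.Agent.Work.MP_c04246_lc.R.Fin3

set_option autoImplicit false

namespace Pool.Agent.Results.MP_c04246_lc.RandomCNF

open Filter Topology
open Pool.Agent.Work.MP_c04246_lc

/-- Random `k`-CNFs with `n` variables and `Δ n` clauses need exponentially long derivations of a
contradiction, and exponentially long proofs of their negations, if the lines are formulas with
counting connectives modulo `p` of cost at most `C n`, or of depth at most `C` and size at most
`C n`. -/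
theorem result (k Δ : ℕ) (hk : 3 ≤ k) :
    ∃ G : (n : ℕ) → Finset (Fin (Δ * n) → Fin k → Fin n × Bool),
      Tendsto (fun n : ℕ => ((G n).card : ℝ) /
        Fintype.card (Fin (Δ * n) → Fin k → Fin n × Bool)) atTop (𝓝 1) ∧
      (2 ^ k ≤ Δ → ∀ n, ∀ F ∈ G n, ∀ v : Fin n → Bool, ∃ i, ∀ j, v (F i j).1 ≠ (F i j).2) ∧
      ∀ p : ℕ, p.Prime → ∀ K κ C : ℕ, ∃ τ a n0 : ℕ, ∀ n ≥ n0, ∀ F ∈ G n,
        ∀ pi : List (Fml p (Fin n)), Fml.IsDer K (Set.range fun i => Fml.clauseF (F i)) pi →
          (Fml.dnfF F ∈ pi ∨ Fml.cst false ∈ pi) →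
          (∀ b ∈ pi, Fml.cost κ τ n none b ≤ C * n ∨
            (Fml.depth b ≤ C ∧ Fml.size b ≤ C * n)) →
          2 ^ n ≤ (pi.map Fml.size).sum ^ a :=
  R.main_random k Δ hk

end Pool.Agent.Results.MP_c04246_lc.RandomCNF
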