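import Mathlib
import Pool.Agent.Work.MP_c04246_lc.G.Fi2
import Pool.Agent.Work.MP_c04246_lc.G.SD3

/-!
# MP_c04246_lc: a size-degree relation for `AC0[p]`-Frege

1. If a `k`-CNF `F` has no polynomial calculus refutation of degree at most `D` over `𝔽_p`, then
every refutation of `F`, and every proof of its negation, whose lines are arbitrary formulas with
counting connectives modulo `p` of depth at most `d` with at most `a` nested conjunctions and
disjunctions, has many distinct arguments of conjunctions and disjunctions, or exponentially many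
distinct subformulas.
2. The instance of random `k`-CNFs with `n` variables and `Δ n` clauses.
-/

set_option autoImplicit false

namespace Pool.Agent.Results.MP_c04246_lc.SizeDegree

open Filter Topology
open Pool.Agent.Work.MP_c04246_lc

theorem result :
    (∀ (p : ℕ) [Fact p.Prime] (K d a : ℕ), ∃ C : ℕ,
      ∀ (n m k D : ℕ) (F : Fin m → Fin k → Fin n × Bool),
        C * (k + 1) ≤ D → ¬ PCDer (ZMod p) F D 1 →
        ∀ pi : List (Fml p (Fin n)), Fml.IsDer K (Set.range fun i => Fml.clauseF (F i)) pi →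
          (Fml.dnfF F ∈ pi ∨ Fml.cst false ∈ pi) →
          (∀ b ∈ pi, Fml.depth b ≤ d ∧ Fml.blk none b ≤ a) →
          D ^ 2 ^ a ≤ C * ((Fml.inputs pi).card ^ (2 ^ a - 1) *
            (Nat.log 2 (Fml.inner pi).card + 1) ^ (2 ^ a - 2) *
            (Nat.log 2 (Fml.subsL pi).card + 1))) ∧
    ∀ k Δ : ℕ, 3 ≤ k → ∃ G : (n : ℕ) → Finset (Fin (Δ * n) → Fin k → Fin n × Bool),
      Tendsto (fun n : ℕ => ((G n).card : ℝ) /
        Fintype.card (Fin (Δ * n) → Fin k → Fin n × Bool)) atTop (𝓝 1) ∧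
      (2 ^ k ≤ Δ → ∀ n, ∀ F ∈ G n, ∀ v : Fin n → Bool, ∃ i, ∀ j, v (F i j).1 ≠ (F i j).2) ∧
      ∀ p : ℕ, p.Prime → ∀ K d a : ℕ, ∃ C n0 : ℕ, ∀ n ≥ n0, ∀ F ∈ G n,
        ∀ pi : List (Fml p (Fin n)), Fml.IsDer K (Set.range fun i => Fml.clauseF (F i)) pi →
          (Fml.dnfF F ∈ pi ∨ Fml.cst false ∈ pi) →
          (∀ b ∈ pi, Fml.depth b ≤ d ∧ Fml.blk none b ≤ a) →
          n ^ 2 ^ a ≤ C * ((Fml.inputs pi).card ^ (2 ^ a - 1) *
            (Nat.log 2 (Fml.inner pi).card + 1) ^ (2 ^ a - 2) *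
            (Nat.log 2 (Fml.subsL pi).card + 1)) :=
  ⟨fun p hp K d a => R.size_degree_main p hp.out K d a, fun k Δ hk => R.main_T k Δ hk⟩

end Pool.Agent.Results.MP_c04246_lc.SizeDegree
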