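import Mathlib
import Pool.Agent.Work.MP_c04246_lc.GT.Main
import Pool.Agent.Work.MP_c04246_lc.HTaut

set_option autoImplicit false

namespace Pool.Agent.Results.MP_c04246_lc.SuperlinearMods

open Pool.Agent.Work.MP_c04246_lc Fml

/-- Exponential lower bounds for constant-depth proofs with counting connectives modulo `p`, in
which all arguments of conjunctions and disjunctions that contain counting connectives of unbounded
fan-in belong to a pool of `I` formulas, up to a few of them and with exceptions for formulas with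
few such connectives; the size of the pool may be superlinear in the number of variables. -/
theorem result (q : ℕ) (hq : q.Prime) :
    ∃ (c : ℕ) (k : ℕ → ℕ) (G : (n : ℕ) → Fin n → Fin (k n) × Fin (k n)),
      (∀ n M : ℕ, Fintype.card (HE q (G n) M) ≤ n * (c * M * (Nat.log 2 n + 1)) ^ q) ∧
      (∀ p n M : ℕ, depth (graphTaut p q (G n) M) ≤ 3 ∧
        Fml.size (graphTaut p q (G n) M) ≤ c * (n * M + 1) ^ c ∧
        (¬ q ∣ n * M → ∀ v, eval v (graphTaut p q (G n) M) = true)) ∧
      ∀ p : ℕ, p.Prime → p ≠ q → ∀ d t b : ℕ, ∃ a n0 : ℕ, ∀ n ≥ n0, ∀ w ≥ Nat.log 2 n,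
        ∀ M m g r s I h : ℕ, w ^ a ≤ M → m * w ^ a ≤ M ^ q →
          (h + 1) * GT.dg n I s ((g + r + 1) * (r + 1) ^ t) b * w ^ a ≤ n →
          ∀ Q : Finset (Fml p (HE q (G n) M)), Q.card ≤ I →
          ∀ l : List (Finset (Fml p (HE q (G n) M))), Ranked w h l →
            {graphTaut p q (G n) M} ∈ l →
            (∀ C ∈ l, ∀ x ∈ C, Bdepth w m d x ∧ Hvy w m (Lay w m g r t) Q s b d x) →
            2 ^ w ≤ 4 * (l.map fun C => ∑ x ∈ C, Fml.size x).sum := by
  classical
  have : Fact q.Prime := ⟨hq⟩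
  choose k G hk hdg hexp using H.exists_graphs
  have hcard : ∀ n M : ℕ, Fintype.card (HE q (G n) M) ≤
      n * (325 * M * (Nat.log 2 n + 1)) ^ q := by
    intro n M
    refine (H.card_HE (G n) (hdg n)).trans (Nat.mul_le_mul (hk n) (Nat.pow_le_pow_left ?_ _))
    have h1 : 65 * (Nat.log 2 n + 5) ≤ 325 * (Nat.log 2 n + 1) := by omega
    calc 65 * (Nat.log 2 n + 5) * M ≤ 325 * (Nat.log 2 n + 1) * M := Nat.mul_le_mul_right _ h1
      _ = 325 * M * (Nat.log 2 n + 1) := by ring
  refine ⟨325 + 4 * (325 ^ q + 1) ^ 2 + 2 * (q + 1), k, G, ?_, ?_, ?_⟩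
  · intro n M
    refine (hcard n M).trans ?_
    gcongr
    omega
  · intro p n M
    refine ⟨H.depth_pmTaut, ?_, ?_⟩
    · refine H.size_pmTaut.trans ?_
      set s := n * M with hs
      have hU : Fintype.card (Fin n × Fin M) = s := by simp [hs]
      have hX : Fintype.card (HE q (G n) M) ≤ 325 ^ q * (s + 1) ^ (q + 1) := by
        refine (hcard n M).trans ?_
        rcases Nat.eq_zero_or_pos n with h0 | h0
        · rw [h0, zero_mul]; exact Nat.zero_le _
        rcases Nat.eq_zero_or_pos M with h1 | h1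
        · rw [h1, mul_zero, zero_mul, zero_pow hq.ne_zero, mul_zero]; exact Nat.zero_le _
        have h2 : Nat.log 2 n + 1 ≤ n := Nat.log_lt_self 2 h0.ne'
        have h3 : 325 * M * (Nat.log 2 n + 1) ≤ 325 * (s + 1) := by
          calc 325 * M * (Nat.log 2 n + 1) ≤ 325 * M * n := Nat.mul_le_mul_left _ h2
            _ = 325 * s := by rw [hs]; ring
            _ ≤ 325 * (s + 1) := Nat.mul_le_mul_left _ (by omega)
        have h4 : n ≤ s + 1 := by
          have : n ≤ n * M := Nat.le_mul_of_pos_right _ h1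
          omega
        calc n * (325 * M * (Nat.log 2 n + 1)) ^ q ≤ (s + 1) * (325 * (s + 1)) ^ q :=
              Nat.mul_le_mul h4 (Nat.pow_le_pow_left h3 _)
          _ = 325 ^ q * (s + 1) ^ (q + 1) := by rw [mul_pow, pow_succ]; ring
      have h5 : s + 1 ≤ (s + 1) ^ (q + 1) := Nat.le_self_pow (by omega) _
      rw [hU]
      calc 4 * (Fintype.card (HE q (G n) M) + s + 1) ^ 2
          ≤ 4 * ((325 ^ q + 1) * (s + 1) ^ (q + 1)) ^ 2 := by
            apply Nat.mul_le_mul_left
            apply Nat.pow_le_pow_left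
            rw [add_mul, one_mul]
            omega
        _ = 4 * (325 ^ q + 1) ^ 2 * (s + 1) ^ (2 * (q + 1)) := by
            rw [mul_pow, ← pow_mul, mul_comm (q + 1) 2]; ring
        _ ≤ _ := by
            refine Nat.mul_le_mul (by omega) (Nat.pow_le_pow_right (by omega) (by omega))
    · intro hn v
      refine H.pmTaut_true (q := q) (fun x => x.2.1) ?_ v
      simpa using hn
  · intro p hp hpq d t b
    have : Fact p.Prime := ⟨hp⟩
    obtain ⟨a, w0, hmain⟩ := GT.lower_bound q p hpq d t b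
    refine ⟨a + 3, 2 ^ (w0 + 100), fun n hn w hw M m g r s I h hM hm hg Q hQ l hl hT hlines => ?_⟩
    have hlog : w0 + 100 ≤ Nat.log 2 n := by
      have := Nat.log_mono_right (b := 2) hn
      rwa [Nat.log_pow (by norm_num)] at this
    have hw1 : 1 ≤ w := by omega
    have hn1 : 1 ≤ n := le_trans (Nat.one_le_pow _ _ (by norm_num)) hn
    have hpow : w ^ a ≤ w ^ (a + 3) := Nat.pow_le_pow_right hw1 (by omega)
    have hdg1 : ∀ j, 1 ≤ GT.dg n I s ((g + r + 1) * (r + 1) ^ t) j := by
      intro j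
      induction j with
      | zero => exact Nat.mul_pos (Nat.succ_pos _) (Nat.pow_pos (Nat.succ_pos _))
      | succ j ih => exact Nat.mul_pos (Nat.succ_pos _) ih
    have h8 : 8 * (Nat.log 2 n + 5) ≤ n := by
      have h1 : w ^ 3 ≤ n := by
        refine le_trans ?_ hg
        have h2 : w ^ 3 ≤ w ^ (a + 3) := Nat.pow_le_pow_right hw1 (by omega)
        exact h2.trans (Nat.le_mul_of_pos_left _ (Nat.mul_pos (by omega) (hdg1 b)))
      have h3 : 100 * w ≤ w ^ 3 := by
        calc 100 * w ≤ (w * w) * w := Nat.mul_le_mul_right _ (by nlinarith)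
          _ = w ^ 3 := by ring
      omega
    obtain ⟨e1, e2, e3⟩ := hexp n h8
    refine hmain n w M m g r s I h (k n) (G n) (by omega) hn1 hw (hdg n) e3 e1 e2 (hpow.trans hM)
      ((Nat.mul_le_mul_left _ hpow).trans hm) ?_ Q hQ l hl hT hlines
    refine le_trans ?_ hg
    calc (h + 1) * w ^ a * GT.dg n I s ((g + r + 1) * (r + 1) ^ t) b
        = (h + 1) * GT.dg n I s ((g + r + 1) * (r + 1) ^ t) b * w ^ a := by ring
      _ ≤ _ := Nat.mul_le_mul_left _ hpow

end Pool.Agent.Results.MP_c04246_lc.SuperlinearMods
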